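import Mathlib
import Pool.Agent.H380.AG.Stm

/-!
# Complexification of moment formulas
-/

set_option autoImplicit false

open MeasureTheory Metric Set Filter Topology
open scoped ENNReal RealInnerProductSpace

namespace Pool.Agent.H127.AG

open Pool.Agent.W778.AG Pool.Agent.H380.AG

/-- the polynomial of the moments -/
noncomputable def FF {n : ℕ} (σ : Measure (En n)) (p q : En n) (j : ℕ) : Polynomial ℝ :=
  ∑ m ∈ Finset.range (j + 1),
    Polynomial.C ((∫ b, ⟪b, p⟫ ^ m * ⟪b, q⟫ ^ (j - m) ∂σ) * (j.choose m : ℝ)) *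
      Polynomial.X ^ (j - m)

lemma ae_norm {n : ℕ} {σ : Measure (En n)} (hσ : Sph σ) : ∀ᵐ b ∂σ, ‖b‖ = 1 := by
  have h : ∀ᵐ b ∂σ, b ∈ sphere (0 : En n) 1 := by
    rw [ae_iff]
    exact hσ.2
  filter_upwards [h] with b hb
  exact mem_sphere_zero_iff_norm.1 hb

lemma int_mon {n : ℕ} {σ : Measure (En n)} (hσ : Sph σ) (p q : En n) (k l : ℕ) :
    Integrable (fun b : En n => ⟪b, p⟫ ^ k * ⟪b, q⟫ ^ l) σ := by
  haveI := hσ.1
  refine Integrable.of_bound (C := ‖p‖ ^ k * ‖q‖ ^ l) ?_ ?_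
  · have : Continuous fun b : En n => (⟪b, p⟫ : ℝ) ^ k * ⟪b, q⟫ ^ l := by fun_prop
    exact this.aestronglyMeasurable
  · filter_upwards [ae_norm hσ] with b hb
    rw [norm_mul, norm_pow, norm_pow]
    have h1 : ‖(⟪b, p⟫ : ℝ)‖ ≤ ‖p‖ := by
      have := norm_inner_le_norm (𝕜 := ℝ) b p
      rwa [hb, one_mul] at this
    have h2 : ‖(⟪b, q⟫ : ℝ)‖ ≤ ‖q‖ := by
      have := norm_inner_le_norm (𝕜 := ℝ) b q
      rwa [hb, one_mul] at this
    gcongr

lemma main_eq {n : ℕ} {σ : Measure (En n)} (hσ : Sph σ) (p q : En n) (z : ℂ) (j : ℕ) :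
    ∫ b, ((⟪b, p⟫ : ℝ) + z * (⟪b, q⟫ : ℝ) : ℂ) ^ j ∂σ = Polynomial.aeval z (FF σ p q j) := by
  unfold FF
  simp only [add_pow]
  rw [integral_finset_sum]
  · rw [map_sum]
    refine Finset.sum_congr rfl fun m _ => ?_
    rw [map_mul, Polynomial.aeval_C, map_pow, Polynomial.aeval_X]
    have e : ∀ b : En n, ((⟪b, p⟫ : ℝ) : ℂ) ^ m * (z * ((⟪b, q⟫ : ℝ) : ℂ)) ^ (j - m) *
        (j.choose m : ℂ) = (((⟪b, p⟫ : ℝ) ^ m * ⟪b, q⟫ ^ (j - m) : ℝ) : ℂ) *
          (z ^ (j - m) * (j.choose m : ℂ)) := by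
      intro b
      push_cast
      rw [mul_pow]
      ring
    simp only [e]
    rw [integral_mul_const, integral_complex_ofReal]
    simp only [Complex.coe_algebraMap]
    push_cast
    ring
  · intro m _
    have e : (fun b : En n => ((⟪b, p⟫ : ℝ) : ℂ) ^ m * (z * ((⟪b, q⟫ : ℝ) : ℂ)) ^ (j - m) *
        (j.choose m : ℂ)) = fun b => (((⟪b, p⟫ : ℝ) ^ m * ⟪b, q⟫ ^ (j - m) : ℝ) : ℂ) *
          (z ^ (j - m) * (j.choose m : ℂ)) := by
      funext b
      push_cast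
      rw [mul_pow]
      ring
    rw [e]
    exact ((int_mon hσ p q m (j - m)).ofReal).mul_const _

lemma real_eq {n : ℕ} {σ : Measure (En n)} (hσ : Sph σ) (p q : En n) (t : ℝ) (j : ℕ) :
    (FF σ p q j).eval t = ∫ b, ⟪b, p + t • q⟫ ^ j ∂σ := by
  have h := main_eq hσ p q (t : ℂ) j
  have e : ∀ b : En n, (((⟪b, p⟫ : ℝ) : ℂ) + (t : ℂ) * ((⟪b, q⟫ : ℝ) : ℂ)) ^ j =
      (((⟪b, p + t • q⟫ : ℝ) ^ j : ℝ) : ℂ) := by
    intro b
    rw [inner_add_right, real_inner_smul_right]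
    push_cast
    rfl
  simp only [e] at h
  rw [integral_complex_ofReal] at h
  have h2 : Polynomial.aeval (t : ℂ) (FF σ p q j) = (((FF σ p q j).eval t : ℝ) : ℂ) := by
    have := Polynomial.aeval_algebraMap_apply ℂ t (FF σ p q j)
    simpa using this
  rw [h2] at h
  exact_mod_cast h.symm

theorem t_CXM : S_CXM := by
  intro n σ p q m hσ hm hodd l
  constructor
  · rw [main_eq hσ p q Complex.I (2 * l)]
    have hpoly : FF σ p q (2 * l) = Polynomial.C (m (2 * l)) *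
        (Polynomial.C (‖p‖ ^ 2) + Polynomial.C (2 * (⟪p, q⟫ : ℝ)) * Polynomial.X +
          Polynomial.C (‖q‖ ^ 2) * Polynomial.X ^ 2) ^ l := by
      apply Polynomial.funext
      intro t
      rw [real_eq hσ, hm, pow_mul, norm_add_sq_real, real_inner_smul_right, norm_smul]
      simp only [Polynomial.eval_mul, Polynomial.eval_C, Polynomial.eval_pow, Polynomial.eval_add,
        Polynomial.eval_X]
      rw [mul_pow ‖t‖, Real.norm_eq_abs, sq_abs]
      ring
    rw [hpoly]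
    simp only [map_mul, map_pow, map_add, Polynomial.aeval_C, Polynomial.aeval_X, Complex.I_sq,
      Complex.coe_algebraMap]
    congr 2
    push_cast
    ring
  · rw [main_eq hσ p q Complex.I (2 * l + 1)]
    have hpoly : FF σ p q (2 * l + 1) = 0 := by
      apply Polynomial.funext
      intro t
      rw [real_eq hσ, hm, hodd _ ⟨l, rfl⟩]
      simp
    rw [hpoly]
    simp

end Pool.Agent.H127.AG
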